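import Mathlib
import Pool.Agent.Q125.PV.Stm

/-! Project PV, job ASG: assignment duality. -/

set_option autoImplicit false

namespace Pool.Agent.Q285.PV

open Pool.Agent.Q125.PV

theorem t_ASG : S_POT → S_ASG := by
  intro hPOT α _ _ E c π hπ hmin
  obtain ⟨p, hp⟩ := hPOT α (fun u u' => E u (π u')) (fun u u' => c u (π u') - c u' (π u'))
    hπ (fun u => sub_self _) (by
      intro σ hσ
      have h1 := hmin (σ.trans π) (fun u => hσ u)
      have h2 : ∑ u, c (σ u) (π (σ u)) = ∑ u, c u (π u) :=
        Equiv.sum_comp σ (fun u => c u (π u))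
      rw [Finset.sum_sub_distrib, h2]
      have h3 : ∑ u, c u ((σ.trans π) u) = ∑ u, c u (π (σ u)) := rfl
      rw [h3] at h1
      linarith)
  refine ⟨p, fun v => p (π.symm v) + c (π.symm v) v, ?_, ?_⟩
  · intro u v huv
    have h1 := hp u (π.symm v) (by
      show E u (π (π.symm v))
      rw [Equiv.apply_symm_apply]
      exact huv)
    simp only [Equiv.apply_symm_apply] at h1
    show p (π.symm v) + c (π.symm v) v ≤ p u + c u v
    linarith
  · intro u
    show p (π.symm (π u)) + c (π.symm (π u)) (π u) = p u + c u (π u)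
    rw [Equiv.symm_apply_apply]

end Pool.Agent.Q285.PV
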