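import Mathlib
import Pool.Agent.Q125.PV.Stm

/-! Project PV, job LKH: out-neighbourhoods with respect to a minimal path system. -/

set_option autoImplicit false

namespace Pool.Agent.Q285.PV

open Pool.Agent.Q125.PV

section
variable {V : Type} [Fintype V] [DecidableEq V] {r : V → V → Prop}
  {Z Z' : Finset V} {M : ℕ} {m : Fin M → ℕ} {P : Fin M → ℕ → V}

theorem mem_vts {v : V} : v ∈ vts m P ↔ ∃ c j, j ≤ m c ∧ P c j = v := by
  unfold vts vtc
  simp only [Finset.mem_biUnion, Finset.mem_univ, true_and, Finset.mem_image, Finset.mem_range,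
    Nat.lt_succ_iff]

theorem Z_eq (hP : IsPS r Finset.univ Z Z' m P) (hZ : Z.card = M) :
    Finset.univ.image (fun c => P c 0) = Z := by
  apply Finset.eq_of_subset_of_card_le
  · intro v hv
    rw [Finset.mem_image] at hv
    obtain ⟨c, -, rfl⟩ := hv
    exact hP.st c
  · rw [Finset.card_image_of_injective, Finset.card_univ, Fintype.card_fin, hZ]
    intro c c' h
    exact (hP.inj c c' 0 0 (Nat.zero_le _) (Nat.zero_le _) h).1

theorem Z'_eq (hP : IsPS r Finset.univ Z Z' m P) (hZ' : Z'.card = M) :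
    Finset.univ.image (fun c => P c (m c)) = Z' := by
  apply Finset.eq_of_subset_of_card_le
  · intro v hv
    rw [Finset.mem_image] at hv
    obtain ⟨c, -, rfl⟩ := hv
    exact hP.en c
  · rw [Finset.card_image_of_injective, Finset.card_univ, Fintype.card_fin, hZ']
    intro c c' h
    exact (hP.inj c c' (m c) (m c') le_rfl le_rfl h).1

theorem notMem_Z (hP : IsPS r Finset.univ Z Z' m P) (hZ : Z.card = M) {c : Fin M} {j : ℕ}
    (hj : 1 ≤ j) (hj' : j ≤ m c) : P c j ∉ Z := by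
  intro h
  rw [← Z_eq hP hZ, Finset.mem_image] at h
  obtain ⟨c', -, h⟩ := h
  have h1 := hP.inj c' c 0 j (Nat.zero_le _) hj' h
  omega

theorem notMem_Z' (hP : IsPS r Finset.univ Z Z' m P) (hZ' : Z'.card = M) {c : Fin M} {j : ℕ}
    (hj : j < m c) : P c j ∉ Z' := by
  intro h
  rw [← Z'_eq hP hZ', Finset.mem_image] at h
  obtain ⟨c', -, h⟩ := h
  obtain ⟨h1, h2⟩ := hP.inj c' c (m c') j le_rfl hj.le h
  subst h1
  omega

theorem notMem_of_vts (hP : IsPS r Finset.univ Z Z' m P) (hZ : Z.card = M) (hZ' : Z'.card = M)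
    {v : V} (hv : v ∉ vts m P) : v ∉ Z ∧ v ∉ Z' := by
  constructor
  · intro h
    rw [← Z_eq hP hZ, Finset.mem_image] at h
    obtain ⟨c, -, h⟩ := h
    exact hv (mem_vts.2 ⟨c, 0, Nat.zero_le _, h⟩)
  · intro h
    rw [← Z'_eq hP hZ', Finset.mem_image] at h
    obtain ⟨c, -, h⟩ := h
    exact hv (mem_vts.2 ⟨c, m c, le_rfl, h⟩)

/-- potentials grow along the paths -/
theorem pot_ge (hP : IsPS r Finset.univ Z Z' m P) (hZ : Z.card = M) (hZ' : Z'.card = M)
    {O I : V → ℤ} (hp : Pot r Z Z' m P O I) (c : Fin M) (j : ℕ) :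
    (1 ≤ j → j ≤ m c → (j : ℤ) ≤ I (P c j)) ∧ (j < m c → (j : ℤ) ≤ O (P c j)) := by
  induction j with
  | zero =>
    refine ⟨fun h => absurd h (by omega), fun _ => ?_⟩
    exact_mod_cast hp.nn _ (hP.st c)
  | succ j ih =>
    have h1 : j + 1 ≤ m c → ((j + 1 : ℕ) : ℤ) ≤ I (P c (j + 1)) := by
      intro h
      rw [hp.use c j (by omega)]
      have := ih.2 (by omega)
      push_cast
      omega
    refine ⟨fun _ h => h1 h, fun h => ?_⟩
    have h2 := h1 h.le
    have h3 := hp.le (P c (j + 1)) (notMem_Z hP hZ (by omega) h.le) (notMem_Z' hP hZ' h)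
    omega

variable [DecidableRel r]

theorem out_ge (hCUT : S_CUT) (hT : Tour r) (hd : Disjoint Z Z') {H : ℕ}
    (hP : IsPS r Finset.univ Z Z' m P) (hZ : Z.card = M) (hZ' : Z'.card = M)
    (hKS : KS r H Finset.univ) {O I : V → ℤ} (hp : Pot r Z Z' m P O I) {u : V} (huZ : u ∉ Z)
    (huZ' : u ∉ Z') (n : ℕ) (hn : (n : ℤ) + 2 ≤ I u) :
    n * (H - 2 * M) ≤ ((outN r u ∩ Finset.univ) \ vts m P).card := by
  let W : ℕ → Finset V := fun x => Finset.univ.filter (fun v => v ∉ vts m P ∧ O v = (x : ℤ))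
  have h1 : ∀ x ∈ Finset.Icc 1 n, H - 2 * M ≤ (W x).card := by
    intro x hx
    rw [Finset.mem_Icc] at hx
    have h2 := hCUT V r Z Z' M H m P O I hT hd hZ hZ' hKS hP hp u (x : ℤ) huZ huZ' (by omega)
      (by omega)
    show H - 2 * M ≤ (Finset.univ.filter (fun v => v ∉ vts m P ∧ O v = (x : ℤ))).card
    omega
  have h2 : ∀ x ∈ Finset.Icc 1 n, W x ⊆ (outN r u ∩ Finset.univ) \ vts m P := by
    intro x hx v hv
    rw [Finset.mem_Icc] at hx
    obtain ⟨-, hv1, hv2⟩ := Finset.mem_filter.1 hv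
    rw [Finset.mem_sdiff, Finset.mem_inter]
    refine ⟨⟨?_, Finset.mem_univ _⟩, hv1⟩
    have hIv := hp.eq v hv1
    have hne : u ≠ v := by
      rintro rfl
      omega
    unfold outN
    rw [Finset.mem_filter]
    refine ⟨Finset.mem_univ _, (hT.2 u v hne).2 fun hvu => ?_⟩
    have h3 := hp.arc v u (notMem_of_vts hP hZ hZ' hv1).2 huZ hvu
    omega
  have h3 : (Finset.Icc 1 n).biUnion W ⊆ (outN r u ∩ Finset.univ) \ vts m P :=
    Finset.biUnion_subset.2 h2
  have h4 : ((Finset.Icc 1 n).biUnion W).card = ∑ x ∈ Finset.Icc 1 n, (W x).card := by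
    apply Finset.card_biUnion
    intro x _ y _ hxy
    show Disjoint (W x) (W y)
    rw [Finset.disjoint_left]
    intro v hv hv'
    obtain ⟨-, -, hv2⟩ := Finset.mem_filter.1 hv
    obtain ⟨-, -, hv3⟩ := Finset.mem_filter.1 hv'
    omega
  calc n * (H - 2 * M) = ∑ x ∈ Finset.Icc 1 n, (H - 2 * M) := by
        rw [Finset.sum_const, Nat.card_Icc, smul_eq_mul, Nat.add_sub_cancel]
    _ ≤ ∑ x ∈ Finset.Icc 1 n, (W x).card := Finset.sum_le_sum h1
    _ = ((Finset.Icc 1 n).biUnion W).card := h4.symm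
    _ ≤ _ := Finset.card_le_card h3

theorem out_vts_le (hP : IsPS r Finset.univ Z Z' m P) (hZ : Z.card = M) (hZ' : Z'.card = M)
    {O I : V → ℤ} (hp : Pot r Z Z' m P O I) {u : V} (hu : u ∉ vts m P) (T : ℕ) (hT1 : 1 ≤ T)
    (hT : O u + 2 ≤ (T : ℤ)) : (outN r u ∩ vts m P).card ≤ M * T := by
  have h1 : outN r u ∩ vts m P ⊆
      Finset.univ.biUnion (fun c : Fin M => (Finset.range T).image (P c)) := by
    intro v hv
    rw [Finset.mem_inter] at hv
    obtain ⟨hv1, hv2⟩ := hv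
    obtain ⟨c, j, hj, rfl⟩ := mem_vts.1 hv2
    rw [Finset.mem_biUnion]
    refine ⟨c, Finset.mem_univ _, Finset.mem_image.2 ⟨j, ?_, rfl⟩⟩
    rw [Finset.mem_range]
    rcases Nat.eq_zero_or_pos j with h0 | h0
    · omega
    · have h2 : r u (P c j) := by
        unfold outN at hv1
        exact (Finset.mem_filter.1 hv1).2
      have h3 := hp.arc u (P c j) (notMem_of_vts hP hZ hZ' hu).2 (notMem_Z hP hZ h0 hj) h2
      have h4 := (pot_ge hP hZ hZ' hp c j).1 h0 hj
      omega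
  calc (outN r u ∩ vts m P).card ≤ _ := Finset.card_le_card h1
    _ ≤ ∑ c : Fin M, ((Finset.range T).image (P c)).card := Finset.card_biUnion_le
    _ ≤ ∑ c : Fin M, T := Finset.sum_le_sum fun c _ => by
        refine Finset.card_image_le.trans ?_
        rw [Finset.card_range]
    _ = M * T := by rw [Finset.sum_const, Finset.card_univ, Fintype.card_fin, smul_eq_mul]

end

theorem t_LKH : S_DUL → S_CUT → S_LKH := by
  intro hDUL hCUT V _ _ r _ Z Z' M H m P hT hd hZ hZ' hKS hM hmin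
  obtain ⟨O, I, hp⟩ := hDUL V r Z Z' M m P hT hd hZ hZ' hM hmin
  have hP := hmin.1
  constructor
  · intro u _ hu
    obtain ⟨huZ, huZ'⟩ := notMem_of_vts hP hZ hZ' hu
    by_cases hy : O u ≤ 3
    · left
      have h1 := out_vts_le hP hZ hZ' hp hu 5 (by norm_num) (by push_cast; omega)
      omega
    · right
      obtain ⟨n, hn⟩ : ∃ n : ℕ, O u = (n : ℤ) + 4 := ⟨(O u - 4).toNat, by omega⟩
      have h1 := out_vts_le hP hZ hZ' hp hu (n + 6) (by omega) (by push_cast; omega)
      have hI := hp.eq u hu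
      have h2 := out_ge hCUT hT hd hP hZ hZ' hKS hp huZ huZ' (n + 2) (by push_cast; omega)
      calc (H - 2 * M) * (outN r u ∩ vts m P).card ≤ (H - 2 * M) * (M * (n + 6)) :=
            Nat.mul_le_mul_left _ h1
        _ ≤ 3 * M * ((n + 2) * (H - 2 * M)) := by
            have h3 : M * (n + 6) ≤ 3 * M * (n + 2) := by nlinarith
            calc (H - 2 * M) * (M * (n + 6)) ≤ (H - 2 * M) * (3 * M * (n + 2)) :=
                  Nat.mul_le_mul_left _ h3
              _ = 3 * M * ((n + 2) * (H - 2 * M)) := by ring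
        _ ≤ 3 * M * ((outN r u ∩ Finset.univ) \ vts m P).card := Nat.mul_le_mul_left _ h2
  · intro c j hj hjm
    have h1 := (pot_ge hP hZ hZ' hp c j).1 (by omega) hjm.le
    exact out_ge hCUT hT hd hP hZ hZ' hKS hp (notMem_Z hP hZ (by omega) hjm.le)
      (notMem_Z' hP hZ' hjm) (j - 2) (by
        have : ((j - 2 : ℕ) : ℤ) = (j : ℤ) - 2 := by omega
        omega)

end Pool.Agent.Q285.PV
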