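import Mathlib
import Pool.Agent.Q125.PV.Stm

/-! Project PV, job LNK: good path systems exist. -/

set_option autoImplicit false

namespace Pool.Agent.Q285.PV

open Pool.Agent.Q125.PV

theorem exists_minPS {V : Type} (r : V → V → Prop) (U Z Z' : Finset V) {M : ℕ}
    (h : ∃ (m : Fin M → ℕ) (P : Fin M → ℕ → V), IsPS r U Z Z' m P) :
    ∃ (m : Fin M → ℕ) (P : Fin M → ℕ → V), MinPS r U Z Z' m P := by
  classical
  have h1 : ∃ n : ℕ, ∃ (m : Fin M → ℕ) (P : Fin M → ℕ → V), IsPS r U Z Z' m P ∧ ∑ c, m c = n := by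
    obtain ⟨m, P, hP⟩ := h
    exact ⟨_, m, P, hP, rfl⟩
  obtain ⟨m, P, hP, hs⟩ := Nat.find_spec h1
  refine ⟨m, P, hP, fun m' P' hP' => ?_⟩
  rw [hs]
  exact Nat.find_min' h1 ⟨m', P', hP', rfl⟩

theorem t_LNK : S_HAL → S_ORB → S_LKH → S_REV → S_LNK := by
  intro hHAL hORB hLKH hREV V _ _ r _ Z Z' M H hT hd hZ hZ' hKS hM hMH
  obtain ⟨σ, hσ⟩ := hHAL V r Z Z' M H hKS hd hZ hZ' hMH
  obtain ⟨m0, P0, hP0, -⟩ := hORB V r Z Z' M σ hd hZ hσ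
  obtain ⟨m, P, hmin⟩ := exists_minPS r Finset.univ Z Z' ⟨m0, P0, hP0⟩
  obtain ⟨h1, h2, h3⟩ := hREV V r
  obtain ⟨-, -, -, -, h4⟩ := h3 M m P
  refine ⟨m, P, hmin.1, hLKH V r Z Z' M H m P hT hd hZ hZ' hKS hM hmin, ?_⟩
  exact hLKH V (rv r) Z' Z M H m (revP m P) (h1 hT) hd.symm hZ' hZ (h2 H _ hKS) hM
    ((h4 Finset.univ Z Z').2 hmin)

end Pool.Agent.Q285.PV
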